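import Pool.Agent.Zk49.Crit
import Pool.Agent.N322.CF.Tw
import Pool.Agent.N53.CF.All
import Pool.Agent.N676.OR.Cnt
import Pool.Agent.N546.ZT.FD
import Pool.Agent.Results.MP_308fa9_nt.EmptySetsOfTwistedCoverings

/-!
# Brauer-Manin sets of twists of cyclic coverings by the numerators and denominators of the convergents
# of every continued fraction normal number

Let `b y ^ 2 = ∏ k, G k (z, w)` be a hyperelliptic curve `D` over `ℚ`, where the `G k` are the
homogenisations of polynomials `g k` with integral coefficients, of even degrees, pairwise coprime.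
Let `h` be a polynomial with integral coefficients, coprime to the `g k` (`Admissible`), and `H` its
homogenisation. For an integer `a` and `m ≥ 2`, `m ∣ deg h`, consider the curve

  `C a : b y ^ 2 = ∏ k, G k (z, w)`, `a x ^ m = H (z, w)`,

a cyclic covering of degree `m` of `D`; for different `a` these coverings are twists of each other. The
classes of the quaternion algebras `(G k, e)`, `e` a nonzero integer, belong to the Brauer group of `C a`.
The starting result `EmptySetsOfTwistedCoverings` (whose definitions are used) shows for almost all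
squarefree `a`, `|a| ≤ X`, that the adelic points of `C a` orthogonal to these classes have persistent
classes, so that there are no orthogonal adelic points if there are no persistent classes.

**Theorem.** Let `α ∈ (0, 1)` be a continued fraction normal number (`CFNormal`: `α` is irrational, and
its orbit under the Gauss map `x ↦ 1 / x - ⌊1 / x⌋` is distributed according to the Gauss measure
`dx / ((1 + x) log 2)`), with the convergents `p_n / q_n` (`cvg (dig α) n = (p_n, q_n)`). Then there is
ONE set `E` of indices of natural density zero such that for ALL integers `u`, `v`, not both zero, and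
ALL families `(b, g, h)` the following holds for the twists by `a = u p_x + v q_x`, for all but finitely
many `x ∉ E` and all `m`: all orthogonal adelic points of `C a` have persistent classes, and if there are
no persistent classes, then there are no orthogonal adelic points, so that the Brauer-Manin set of `C a`
is empty and the curve satisfies Q1 (`GoodTwist`). Almost all numbers `α` are normal, and explicit ones
are known (Adler, Keane, Smorodinsky).

The condition is only on `α`, not on the curves. There are at most `O(log X)` convergents with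
`q_n ≤ X`, and the integers `a` are not squarefree in general. For `D : y² = (z² + 51) (z² - 1)` and
`h = (z² + 1) (z² - 17) (z² + 17)` there are no persistent classes, and all the curves `C a` have adelic
points.

Proof. The property of `a` follows if a prime of each of finitely many sets of primes with divergent sums
of reciprocals divides `a` exactly once (`Pool.Agent.N546.ZT.bm_crit`: local analysis of helper925,
theorem of Chebotarev, helper546). The set of the `c` such that no such prime divides `λ(c)` exactly once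
is pronull: its closure in the product of the `ℤ_p ^ 2`, `p` not dividing `M`, has Haar measure zero, for
all `M` (helper676). The convergents of a normal number are in a pronull set only for indices of
density zero (campaign CF of helper53, and helper322). There are countably many `(b, g, h)` and `λ`, and
a diagonal argument gives one set `E`.
-/

set_option autoImplicit false

namespace Pool.Agent.Results.MP_308fa9_nt.ConvergentsOfNormalNumbers

open Polynomial MeasureTheory Filter Topology Pool.Agent.R925.FD
open Pool.Agent.Results.MP_308fa9_nt.EmptySetsOfTwistedCoverings (Admissible HasClass)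
open Pool.Agent.N676.OR (Hit Big)
open Pool.Agent.N53.CF (CFNormal cvg)
open Pool.Agent.W811.Stu (dig)

/-- `E` has natural density zero. -/
def DensityZero (E : Set ℕ) : Prop :=
  Tendsto (fun N : ℕ => (({x : ℕ | x < N ∧ x ∈ E}.ncard : ℕ) : ℝ) / (N : ℝ)) atTop (𝓝 0)

/-- On the curves `C a` every orthogonal adelic point has a persistent class; and if there are no
persistent classes, there are no orthogonal adelic points. -/
def GoodTwist {r : ℕ} (b : ℤ) (g : Fin r → ℤ[X]) (h : ℤ[X]) (a : ℤ) : Prop :=
  ∀ m, 2 ≤ m → m ∣ h.natDegree → ∀ P : AdelicPoint m b a g h,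
    (Orthogonal P → ∃ n : Fin r → ℤ, HasClass P n ∧ Persistent 2 g h (fun k => (n k : ℚ))) ∧
    ((∀ δ : Fin r → ℚ, IsClass 2 b δ → ¬ Persistent 2 g h δ) → ¬ Orthogonal P)

lemma goodTwist_of {r : ℕ} {b : ℤ} {g : Fin r → ℤ[X]} {h : ℤ[X]} (hA : Admissible b g h) :
    ∃ PP : Set (Set ℕ), PP.Finite ∧ (∀ P ∈ PP, Big P) ∧
      ∀ a : ℤ, (∀ P ∈ PP, Hit P a) → GoodTwist b g h a := by
  obtain ⟨PP, h1, h2, h3⟩ := Pool.Agent.Zk49.hits_of_crit
    (Pool.Agent.N546.ZT.bm_crit hA.b_ne hA.g_ne hA.h_ne hA.deg hA.coprime hA.coprime_h)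
  refine ⟨PP, h1, h2, fun a ha m hm hmh P => ⟨fun hP => ?_, fun hno hP => ?_⟩⟩
  · obtain ⟨n, h3, h4, h5, h6, h7⟩ := h3 a ha m hm hmh P hP
    exact ⟨n, ⟨h3, h4, h6, h7⟩, h5⟩
  · obtain ⟨n, h3, h4, h5, h6, h7⟩ := h3 a ha m hm hmh P hP
    exact hno _ h4 h5

/-- the property which is used for all data at once -/
lemma all_data : ∀ D : Σ r : ℕ, ℤ × (Fin r → ℤ[X]) × ℤ[X],
    ∃ PP : Set (Set ℕ), PP.Finite ∧ (∀ P ∈ PP, Big P) ∧ ∀ a : ℤ, (∀ P ∈ PP, Hit P a) →
      (Admissible D.2.1 D.2.2.1 D.2.2.2 → GoodTwist D.2.1 D.2.2.1 D.2.2.2 a) := by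
  rintro ⟨r, b, g, h⟩
  by_cases hA : Admissible b g h
  · obtain ⟨PP, h1, h2, h3⟩ := goodTwist_of hA
    exact ⟨PP, h1, h2, fun a ha _ => h3 a ha⟩
  · exact ⟨∅, Set.finite_empty, fun P hP => absurd hP (Set.notMem_empty _),
      fun a _ hA' => absurd hA' hA⟩

/-- all families of curves at once -/
theorem conv (α : ℝ) (hα : CFNormal α) : ∃ E : Set ℕ, DensityZero E ∧
    ∀ (r : ℕ) (b : ℤ) (g : Fin r → ℤ[X]) (h : ℤ[X]), Admissible b g h →
      ∀ u v : ℤ, u ≠ 0 ∨ v ≠ 0 →
        {x : ℕ | x ∉ E ∧
          ¬ GoodTwist b g h (u * cvg (dig α) x 0 + v * cvg (dig α) x 1)}.Finite := by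
  classical
  have hcp := Pool.Agent.N676.OR.countable_poly
  obtain ⟨E, hE, hall⟩ := Pool.Agent.N322.CF.cf_tw' Pool.Agent.N53.CF.main
    (𝔇 := Σ r : ℕ, ℤ × (Fin r → ℤ[X]) × ℤ[X])
    (fun D a => Admissible D.2.1 D.2.2.1 D.2.2.2 → GoodTwist D.2.1 D.2.2.1 D.2.2.2 a)
    all_data α hα
  refine ⟨E, hE, fun r b g h hA u v huv => (hall u v huv ⟨r, b, g, h⟩).subset ?_⟩
  rintro x ⟨hx, hx'⟩
  exact ⟨hx, fun hgood => hx' (hgood hA)⟩

theorem result :
    (∀ᵐ α ∂(volume.restrict (Set.Ioo (0 : ℝ) 1)), CFNormal α) ∧
    (∀ α : ℝ, CFNormal α → ∃ E : Set ℕ, DensityZero E ∧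
      ∀ (r : ℕ) (b : ℤ) (g : Fin r → ℤ[X]) (h : ℤ[X]), Admissible b g h →
        ∀ u v : ℤ, u ≠ 0 ∨ v ≠ 0 →
          {x : ℕ | x ∉ E ∧
            ¬ GoodTwist b g h (u * cvg (dig α) x 0 + v * cvg (dig α) x 1)}.Finite) ∧
    Admissible 1 exg exh ∧ (∀ δ, IsClass 2 1 δ → ¬ Persistent 2 exg exh δ) ∧
    ∀ (a : ℤ) (m : ℕ), m ≠ 0 → Nonempty (AdelicPoint m 1 a exg exh) :=
  ⟨Pool.Agent.N53.CF.t_TYP, conv, EmptySetsOfTwistedCoverings.result.2.1,
    EmptySetsOfTwistedCoverings.result.2.2.1, EmptySetsOfTwistedCoverings.result.2.2.2.1⟩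

end Pool.Agent.Results.MP_308fa9_nt.ConvergentsOfNormalNumbers
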