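import Pool.Agent.Zk49.Crit
import Pool.Agent.N18.KM.Tw
import Pool.Agent.N24.KM.All
import Pool.Agent.N676.OR.Cnt
import Pool.Agent.N546.ZT.FD
import Pool.Agent.Results.MP_308fa9_nt.EmptySetsOfTwistedCoverings

/-!
# Brauer-Manin sets of twists of cyclic coverings along arbitrary sequences and almost all multipliers

Let `b y ^ 2 = ∏ k, G k (z, w)` be a hyperelliptic curve `D` over `ℚ`, where the `G k` are the
homogenisations of polynomials `g k` with integral coefficients, of even degrees, pairwise coprime.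
Let `h` be a polynomial with integral coefficients, coprime to the `g k` (`Admissible`), and `H` its
homogenisation. For an integer `a` and `m ≥ 2`, `m ∣ deg h`, consider the curve

  `C a : b y ^ 2 = ∏ k, G k (z, w)`, `a x ^ m = H (z, w)`,

a cyclic covering of degree `m` of `D`; for different `a` these coverings are twists of each other. The
classes of the quaternion algebras `(G k, e)`, `e` a nonzero integer, belong to the Brauer group of `C a`.
The starting result `EmptySetsOfTwistedCoverings` (whose definitions are used) shows for almost all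
squarefree `a`, `|a| ≤ X`, that the adelic points of `C a` orthogonal to these classes have persistent
classes, so that there are no orthogonal adelic points if there are no persistent classes; the starting
result `ThinSequencesOfCoverings` treats sequences of polynomial growth with a uniform distribution.

**Theorem.** A sequence `c_0, c_1, …` of vectors in `ℤ ^ ι` (`ι` a finite set) is called good (`Good`) if
there is ONE set `E` of indices of natural density zero, such that for ALL families `(b, g, h)` and ALL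
linear forms `λ ≠ 0` with integral coefficients, for `a = λ(c_x)` and all but finitely many `x ∉ E`: all
orthogonal adelic points of the curves `C a` have persistent classes, and if there are no persistent
classes, then there are no orthogonal adelic points, so that the Brauer-Manin set of `C a` is empty and
the curve satisfies Q1.

1. Let `f_{i,0}, f_{i,1}, …` (`i ∈ ι`) be functions which satisfy the hypothesis of Koksma's theorem on
   `[a_i, b_i]` (`Koksma`). Then `c_x = (⌊f_{i,x}(α_i)⌋)_i` is good for almost all `α` with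
   `a_i ≤ α_i ≤ b_i`.
2. Let `a_{i,0}, a_{i,1}, …` (`i ∈ ι`) be ANY sequences of real numbers with mutual distances at least
   `δ > 0`, for example any sequences of different integers (`x!`, `2 ^ x`, any enumeration of any
   infinite set of integers or of primes). Then `c_x = (⌊a_{i,x} α_i⌋)_i` is good for almost all `α`.
3. Let `k_0, k_1, …` be ANY sequence of different natural numbers, and `ξ_i ≠ 0`. Then
   `c_x = (⌊ξ_i α_i ^ k_x⌋)_i` is good for almost all `α` with all `α_i > 1`.

The sequences can grow arbitrarily fast, so that among the integers up to `X` the number of the twists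
considered tends to infinity with `X` as slowly as one likes, and the twists `a` are not squarefree in
general. There is one exceptional set for all families of curves. For `D : y² = (z² + 51) (z² - 1)` and
`h = (z² + 1) (z² - 17) (z² + 17)` there are no persistent classes, and all the curves `C a` have adelic
points.

Proof. The property of `a` follows if a prime of each of finitely many sets of primes with divergent sums
of reciprocals divides `a` exactly once (`Pool.Agent.N546.ZT.bm_crit`: local analysis of helper925,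
theorem of Chebotarev, helper546). The set of the `c` such that no such prime divides `λ(c)` exactly once
is pronull: its closure in the product of the `ℤ_p ^ ι`, `p` not dividing `M`, has Haar measure zero, for
all `M` (helper676). By the theorem of Koksma in several variables almost all metric sequences are in such
a set only for indices of density zero (helper24, helper18 and the workers of the project KM). There are
countably many `(b, g, h)` and `λ`, and a diagonal argument gives one set `E`.
-/

set_option autoImplicit false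

namespace Pool.Agent.Results.MP_308fa9_nt.MetricSequencesOfCoverings

open Polynomial MeasureTheory Filter Topology Pool.Agent.R925.FD
open Pool.Agent.Results.MP_308fa9_nt.EmptySetsOfTwistedCoverings (Admissible HasClass)
open Pool.Agent.N676.OR (Hit Big)

/-- The hypothesis of Koksma's theorem: the functions `f n` are twice continuously differentiable, the
derivatives of different ones differ by at least `δ > 0` on `[a, b]`, and the second derivative of
`f m - f n` does not change its sign there. -/
def Koksma (a b : ℝ) (f : ℕ → ℝ → ℝ) : Prop :=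
  (∀ n, ContDiff ℝ 2 (f n)) ∧ ∃ δ : ℝ, 0 < δ ∧ ∀ m n : ℕ, m ≠ n →
    (∀ x ∈ Set.Icc a b, δ ≤ |deriv (f m) x - deriv (f n) x|) ∧
    ((∀ x ∈ Set.Icc a b, deriv (deriv (f n)) x ≤ deriv (deriv (f m)) x) ∨
      ∀ x ∈ Set.Icc a b, deriv (deriv (f m)) x ≤ deriv (deriv (f n)) x)

/-- `E` has natural density zero. -/
def DensityZero (E : Set ℕ) : Prop :=
  Tendsto (fun N : ℕ => (({x : ℕ | x < N ∧ x ∈ E}.ncard : ℕ) : ℝ) / (N : ℝ)) atTop (𝓝 0)

/-- On the curves `C a` every orthogonal adelic point has a persistent class; and if there are no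
persistent classes, there are no orthogonal adelic points. -/
def GoodTwist {r : ℕ} (b : ℤ) (g : Fin r → ℤ[X]) (h : ℤ[X]) (a : ℤ) : Prop :=
  ∀ m, 2 ≤ m → m ∣ h.natDegree → ∀ P : AdelicPoint m b a g h,
    (Orthogonal P → ∃ n : Fin r → ℤ, HasClass P n ∧ Persistent 2 g h (fun k => (n k : ℚ))) ∧
    ((∀ δ : Fin r → ℚ, IsClass 2 b δ → ¬ Persistent 2 g h δ) → ¬ Orthogonal P)

/-- The integers `a = λ(c x)`, for all linear forms `λ ≠ 0` and ALL families of curves, have the property
`GoodTwist`, apart from the indices in one set of density zero and finitely many more, depending on the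
family and the linear form. -/
def Good {ι : Type} [Fintype ι] (c : ℕ → ι → ℤ) : Prop :=
  ∃ E : Set ℕ, DensityZero E ∧
    ∀ (r : ℕ) (b : ℤ) (g : Fin r → ℤ[X]) (h : ℤ[X]), Admissible b g h →
      ∀ lam : ι → ℤ, lam ≠ 0 → {x : ℕ | x ∉ E ∧ ¬ GoodTwist b g h (∑ i, lam i * c x i)}.Finite

lemma goodTwist_of {r : ℕ} {b : ℤ} {g : Fin r → ℤ[X]} {h : ℤ[X]} (hA : Admissible b g h) :
    ∃ PP : Set (Set ℕ), PP.Finite ∧ (∀ P ∈ PP, Big P) ∧
      ∀ a : ℤ, (∀ P ∈ PP, Hit P a) → GoodTwist b g h a := by
  obtain ⟨PP, h1, h2, h3⟩ := Pool.Agent.Zk49.hits_of_crit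
    (Pool.Agent.N546.ZT.bm_crit hA.b_ne hA.g_ne hA.h_ne hA.deg hA.coprime hA.coprime_h)
  refine ⟨PP, h1, h2, fun a ha m hm hmh P => ⟨fun hP => ?_, fun hno hP => ?_⟩⟩
  · obtain ⟨n, h3, h4, h5, h6, h7⟩ := h3 a ha m hm hmh P hP
    exact ⟨n, ⟨h3, h4, h6, h7⟩, h5⟩
  · obtain ⟨n, h3, h4, h5, h6, h7⟩ := h3 a ha m hm hmh P hP
    exact hno _ h4 h5

/-- the property which is used for all data at once -/
lemma all_data : ∀ D : Σ r : ℕ, ℤ × (Fin r → ℤ[X]) × ℤ[X],
    ∃ PP : Set (Set ℕ), PP.Finite ∧ (∀ P ∈ PP, Big P) ∧ ∀ a : ℤ, (∀ P ∈ PP, Hit P a) →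
      (Admissible D.2.1 D.2.2.1 D.2.2.2 → GoodTwist D.2.1 D.2.2.1 D.2.2.2 a) := by
  rintro ⟨r, b, g, h⟩
  by_cases hA : Admissible b g h
  · obtain ⟨PP, h1, h2, h3⟩ := goodTwist_of hA
    exact ⟨PP, h1, h2, fun a ha _ => h3 a ha⟩
  · exact ⟨∅, Set.finite_empty, fun P hP => absurd hP (Set.notMem_empty _),
      fun a _ hA' => absurd hA' hA⟩

/-- metric sequences -/
theorem metric (ι : Type) [Fintype ι] :
    (∀ (a b : ι → ℝ) (f : ι → ℕ → ℝ → ℝ), (∀ i, a i < b i) → (∀ i, Koksma (a i) (b i) (f i)) →
      ∀ᵐ α : ι → ℝ, (∀ i, α i ∈ Set.Icc (a i) (b i)) → Good fun x i => ⌊f i x (α i)⌋) ∧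
    (∀ (a : ι → ℕ → ℝ) (δ : ℝ), 0 < δ → (∀ i m n, m ≠ n → δ ≤ |a i m - a i n|) →
      ∀ᵐ α : ι → ℝ, Good fun x i => ⌊a i x * α i⌋) ∧
    (∀ (k : ℕ → ℕ) (ξ : ι → ℝ), Function.Injective k → (∀ i, ξ i ≠ 0) →
      ∀ᵐ α : ι → ℝ, (∀ i, 1 < α i) → Good fun x i => ⌊ξ i * α i ^ k x⌋) := by
  classical
  have hcp := Pool.Agent.N676.OR.countable_poly
  refine Pool.Agent.N18.KM.parts_tw Pool.Agent.N24.KM.main
    (𝔇 := Σ r : ℕ, ℤ × (Fin r → ℤ[X]) × ℤ[X])
    (fun D a => Admissible D.2.1 D.2.2.1 D.2.2.2 → GoodTwist D.2.1 D.2.2.1 D.2.2.2 a)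
    all_data Good ?_
  intro c E hE hall
  refine ⟨E, hE, fun r b g h hA lam hlam => (hall lam hlam ⟨r, b, g, h⟩).subset ?_⟩
  rintro x ⟨hx, hx'⟩
  exact ⟨hx, fun hgood => hx' (hgood hA)⟩

theorem result :
    (∀ (ι : Type) [Fintype ι],
      (∀ (a b : ι → ℝ) (f : ι → ℕ → ℝ → ℝ), (∀ i, a i < b i) → (∀ i, Koksma (a i) (b i) (f i)) →
        ∀ᵐ α : ι → ℝ, (∀ i, α i ∈ Set.Icc (a i) (b i)) → Good fun x i => ⌊f i x (α i)⌋) ∧
      (∀ (a : ι → ℕ → ℝ) (δ : ℝ), 0 < δ → (∀ i m n, m ≠ n → δ ≤ |a i m - a i n|) →
        ∀ᵐ α : ι → ℝ, Good fun x i => ⌊a i x * α i⌋) ∧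
      (∀ (k : ℕ → ℕ) (ξ : ι → ℝ), Function.Injective k → (∀ i, ξ i ≠ 0) →
        ∀ᵐ α : ι → ℝ, (∀ i, 1 < α i) → Good fun x i => ⌊ξ i * α i ^ k x⌋)) ∧
    Admissible 1 exg exh ∧ (∀ δ, IsClass 2 1 δ → ¬ Persistent 2 exg exh δ) ∧
    ∀ (a : ℤ) (m : ℕ), m ≠ 0 → Nonempty (AdelicPoint m 1 a exg exh) :=
  ⟨fun ι _ => metric ι, EmptySetsOfTwistedCoverings.result.2.1,
    EmptySetsOfTwistedCoverings.result.2.2.1, EmptySetsOfTwistedCoverings.result.2.2.2.1⟩

end Pool.Agent.Results.MP_308fa9_nt.MetricSequencesOfCoverings
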